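import Pool.Agent.H123R3.C1.OneD

/-! # Local one-dimensional rigidity fails in dimension three -/

set_option autoImplicit false

open Metric
open scoped ContDiff Laplacian

namespace Pool.Agent.Results.MP_c10eee_an.DegenerateCentre

/-- `V` is a one-dimensional solution: `V'' = f(V)` on the whole line -/
def OneDimSol (f V : ℝ → ℝ) : Prop :=
  ∃ V' : ℝ → ℝ, (∀ s, HasDerivAt V (V' s) s) ∧ ∀ s, HasDerivAt V' (f (V s)) s

/-- `Φ` is, on the open ball of radius `δ` centred at the origin, an isometry up to distortion of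
one percent -/
def NearIsometry (δ : ℝ) (Φ : EuclideanSpace ℝ (Fin 3) → EuclideanSpace ℝ (Fin 3)) : Prop :=
  ∀ x ∈ ball (0 : EuclideanSpace ℝ (Fin 3)) δ, ∀ y ∈ ball (0 : EuclideanSpace ℝ (Fin 3)) δ,
    99 / 100 * ‖x - y‖ ≤ ‖Φ x - Φ y‖ ∧ ‖Φ x - Φ y‖ ≤ 101 / 100 * ‖x - y‖

/-- `u` satisfies the standing hypothesis: it is a one-dimensional solution after a
homeomorphism `Φ` of the closed unit ball onto itself -/
def TopOneDim (f : ℝ → ℝ) (u : EuclideanSpace ℝ (Fin 3) → ℝ) : Prop :=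
  ∃ (V : ℝ → ℝ) (a : EuclideanSpace ℝ (Fin 3))
    (Φ : closedBall (0 : EuclideanSpace ℝ (Fin 3)) 1 ≃ₜ
      closedBall (0 : EuclideanSpace ℝ (Fin 3)) 1),
    OneDimSol f V ∧ ‖a‖ = 1 ∧ ∀ x : closedBall (0 : EuclideanSpace ℝ (Fin 3)) 1,
      u x = V (inner ℝ (Φ x : EuclideanSpace ℝ (Fin 3)) a)

/-- `u` is nearly isometric to a one-dimensional solution on the ball of radius `δ` -/
def NearOneDim (f : ℝ → ℝ) (u : EuclideanSpace ℝ (Fin 3) → ℝ) (δ : ℝ) : Prop :=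
  ∃ (V : ℝ → ℝ) (a : EuclideanSpace ℝ (Fin 3))
    (Φ : EuclideanSpace ℝ (Fin 3) → EuclideanSpace ℝ (Fin 3)),
    OneDimSol f V ∧ ‖a‖ = 1 ∧ NearIsometry δ Φ ∧
      ∀ x ∈ ball (0 : EuclideanSpace ℝ (Fin 3)) δ, u x = V (inner ℝ (Φ x) a)

/-- For every smooth compactly supported `f ≥ 0` there is a smooth solution `u` of `Δ u = f(u)` in
the unit ball of three-dimensional space which is homeomorphic, by a homeomorphism `Φ` of the
closed unit ball onto itself, to a one-dimensional solution `V` (`V'' = f(V)` on the line), but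
which on no ball around the centre is a one-dimensional solution composed with a coordinate of a
map that is an isometry up to distortion of one percent. -/
theorem result (f : ℝ → ℝ) (hf : ContDiff ℝ ∞ f) (hs : HasCompactSupport f)
    (h0 : ∀ t, 0 ≤ f t) :
    ∃ u : EuclideanSpace ℝ (Fin 3) → ℝ, ContDiff ℝ ∞ u ∧
      (∀ x ∈ ball (0 : EuclideanSpace ℝ (Fin 3)) 1, (Δ u) x = f (u x)) ∧
      TopOneDim f u ∧ ∀ δ > 0, ¬ NearOneDim f u δ := by
  obtain ⟨u, h1, h2, ⟨V, V', a, Φ, hV, hV', ha, hΦ⟩, h4⟩ :=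
    Pool.Agent.H123R3.C1.main f hf.continuous hs h0
  refine ⟨u, h1, h2, ⟨V, a, Φ, ⟨V', hV, hV'⟩, ha, hΦ⟩, fun δ hδ => ?_⟩
  rintro ⟨W, b, Ψ, ⟨W', hW, hW'⟩, hb, hΨ, hrep⟩
  exact h4 ⟨δ, W, W', b, Ψ, hδ, hW, hW', hb, hΨ, hrep⟩

end Pool.Agent.Results.MP_c10eee_an.DegenerateCentre
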